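import Pool.Agent.T6.H13.CC.Cnt
import Pool.Agent.T6.H13.CC.Wei

/-!
# MP_fb6b45_ag: the generic curve of genus one in characteristic two has no function of type
# `(3,3,3,3,3)`

Let `K` be an algebraically closed field of characteristic two and `W` an elliptic curve over `K`
with `j(W) ≠ 0`, for example the curve with `j`-invariant `t` over the algebraic closure of
`𝔽₂(t)`. Then there is no rational function on `W` of ramification type `(3,3,3,3,3)`; so the answer
to Q1 is negative. (The curve is ordinary; hence the covers of type `(3,3,3,3,3)` by curves of genus
one that are known to exist in characteristic two are covers by the supersingular curve.)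

Idea of the proof. Write `W` as `y² + x y = x³ + b²`, and let `∂` be the invariant derivation
(`∂ x = x`, `∂ y = x² + y`), which satisfies `∂ ∂ = ∂`, and the kernel of which are the squares. Let
`f` be a function all of whose ramification indices are `1` or `3`, `h² = f + ∂ f`, `∂ f = x g²` and
`η = (y + b) / x`, and `ρ = ∂ g / g + η`. Then `∂ ρ = ρ + ρ²`. The function
`s = (∂ h)² / ∂ f + ρ + ρ²` satisfies `∂ s = s`, and a local computation shows that it has no poles,
since the ramification indices are `1` and `3` (in terms of Hasse derivatives, `ρ = D² f / ∂ f`, and
the function `s` is the Schwarzian derivative of `f` divided by six). So `s = 0`. The poles of `ρ`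
are the simple poles of `f` and the points where `f` takes a finite value with multiplicity three,
and they are simple. But the orders of the zeros of `ρ` are multiples of four, since
`ρ (1 + ρ) ∂ f = (∂ h)²`, the orders of `∂ f` outside of the poles of `ρ` are multiples of four and
the orders of `∂ h` are even. So the number of the poles of `ρ` is a multiple of four. For type
`(3,3,3,3,3)` it is `10` or `6`.
-/

set_option autoImplicit false

open Pool.Agent.T6.H13.CC

namespace Pool.Agent.Results.MP_fb6b45_ag.NoSuchCover

universe u

/-- An elliptic curve with `j ≠ 0` over an algebraically closed field of characteristic two has no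
rational function of ramification type `(3,3,3,3,3)`. -/
theorem result (K : Type u) [Field K] [IsAlgClosed K] [CharP K 2] (W : WeierstrassCurve K)
    [W.IsElliptic] (hj : W.j ≠ 0) :
    ¬ ∃ f : W.toAffine.FunctionField, Type33333 (k := K) f := by
  rintro ⟨f, hf⟩
  obtain ⟨C⟩ := nonempty_cur W hj
  have hch : CharP W.toAffine.FunctionField 2 :=
    charP_of_injective_algebraMap (algebraMap K W.toAffine.FunctionField).injective 2
  exact C.no_type f hf

end Pool.Agent.Results.MP_fb6b45_ag.NoSuchCover
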